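import Mathlib
import Pool.Agent.Lib.MP_40b2af_gt.Defs

set_option autoImplicit false

noncomputable section

namespace Pool.Agent.Lib.MP_40b2af_s7

open scoped Manifold ContDiff ComplexConjugate Matrix Topology
open Pool.Agent.Lib.MP_40b2af_gt

section Oct

variable {R : Type} [CommRing R]

/-- octonion product with coefficients in a commutative ring -/
def omul (a b : Fin 8 → R) : Fin 8 → R :=
  ![a 0 * b 0 - a 1 * b 1 - a 2 * b 2 - a 3 * b 3 - a 4 * b 4 - a 5 * b 5 - a 6 * b 6 - a 7 * b 7,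
    a 0 * b 1 + a 1 * b 0 + a 2 * b 3 - a 3 * b 2 + a 4 * b 5 - a 5 * b 4 - a 6 * b 7 + a 7 * b 6,
    a 0 * b 2 - a 1 * b 3 + a 2 * b 0 + a 3 * b 1 + a 4 * b 6 + a 5 * b 7 - a 6 * b 4 - a 7 * b 5,
    a 0 * b 3 + a 1 * b 2 - a 2 * b 1 + a 3 * b 0 + a 4 * b 7 - a 5 * b 6 + a 6 * b 5 - a 7 * b 4,
    a 0 * b 4 - a 1 * b 5 - a 2 * b 6 - a 3 * b 7 + a 4 * b 0 + a 5 * b 1 + a 6 * b 2 + a 7 * b 3,
    a 0 * b 5 + a 1 * b 4 - a 2 * b 7 + a 3 * b 6 - a 4 * b 1 + a 5 * b 0 - a 6 * b 3 + a 7 * b 2,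
    a 0 * b 6 + a 1 * b 7 + a 2 * b 4 - a 3 * b 5 - a 4 * b 2 + a 5 * b 3 + a 6 * b 0 - a 7 * b 1,
    a 0 * b 7 - a 1 * b 6 + a 2 * b 5 + a 3 * b 4 - a 4 * b 3 - a 5 * b 2 + a 6 * b 1 + a 7 * b 0]

/-- octonion conjugation -/
def ostar (a : Fin 8 → R) : Fin 8 → R := ![a 0, -a 1, -a 2, -a 3, -a 4, -a 5, -a 6, -a 7]

/-- the invariant four-linear form -/
def Phi (x x' u u' : Fin 8 → R) : R := omul x' (ostar x) ⬝ᵥ omul u' (ostar u)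

end Oct

abbrev W : Type := Fin 8 → ℂ

abbrev Mat : Type := Matrix (Fin 8) (Fin 8) ℂ

/-- complex conjugate vector -/
def cj (x : W) : W := fun i => conj (x i)

/-- complex conjugate matrix -/
def cjM (g : Mat) : Mat := g.map conj

/-- squared Hermitian norm -/
def nsq (x : W) : ℝ := ∑ i, Complex.normSq (x i)

/-- the group G (Spin(7,1) up to finite index) -/
def IsG (g : Mat) : Prop :=
  gᵀ * g = 1 ∧ ∀ x x' u u' : W,
    Phi (g *ᵥ x) (cjM g *ᵥ x') (g *ᵥ u) (cjM g *ᵥ u') = Phi x x' u u'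

/-- base point of the complex sphere -/
def e0 : W := Pi.single 0 1

/-- stereographic parametrisation of the complex sphere -/
def psi (z : V 7) : W :=
  Fin.cons ((1 - z ⬝ᵥ z) / (1 + z ⬝ᵥ z)) fun j => 2 * z j / (1 + z ⬝ᵥ z)

/-- derivative of psi at z in the direction u -/
def dpsi (z u : V 7) : W :=
  Fin.cons (-4 * (z ⬝ᵥ u) / (1 + z ⬝ᵥ z) ^ 2)
    fun j => 2 * u j / (1 + z ⬝ᵥ z) - 4 * z j * (z ⬝ᵥ u) / (1 + z ⬝ᵥ z) ^ 2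

/-- the invariant Hermitian form in the stereographic chart -/
def Hf (z u v : V 7) : ℂ := Phi (psi z) (cj (psi z)) (dpsi z u) (cj (dpsi z v))

/-- its coefficients -/
def h0 : Her 7 := fun z k l => Hf z (Pi.single k 1) (Pi.single l 1)

/-- what is needed from the lattice -/
structure Lat (Γ : Mat → Prop) : Prop where
  isG : ∀ γ, Γ γ → IsG γ
  one : Γ 1
  mul : ∀ γ δ, Γ γ → Γ δ → Γ (γ * δ)
  tr : ∀ γ, Γ γ → Γ γᵀ
  free : ∀ γ g x, Γ γ → IsG g → x ⬝ᵥ x = 1 → nsq (g *ᵥ x) < 2 → nsq (g *ᵥ (γ *ᵥ x)) < 2 → γ = 1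
  fin : ∀ r : ℝ, {γ | Γ γ ∧ ∀ i j, ‖γ i j‖ ≤ r}.Finite
  cocpt : ∃ r : ℝ, ∀ g, IsG g → ∃ γ, Γ γ ∧ ∀ i j, ‖(g * γ) i j‖ ≤ r

/-- block A: the group -/
structure Grp : Prop where
  one : IsG 1
  mul : ∀ g k, IsG g → IsG k → IsG (g * k)
  tr : ∀ g, IsG g → IsG gᵀ
  trans : ∀ x : W, x ⬝ᵥ x = 1 → ∃ g, IsG g ∧ g *ᵥ e0 = x
  bound : ∀ g x y, IsG g → x ⬝ᵥ x = 1 → nsq (g *ᵥ y) ≤ 4 * nsq x * nsq (g *ᵥ x) * nsq y

/-- block B: the lattice -/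
def St_lat : Prop := Grp → ∃ Γ, Lat Γ

/-- block C: the compact quotient and its metric -/
def St_mfd : Prop := Grp → (∃ Γ, Lat Γ) →
  ∃ (M : Type) (_ : TopologicalSpace M) (_ : T2Space M) (_ : CompactSpace M)
    (_ : ConnectedSpace M) (_ : ChartedSpace (V 7) M) (_ : IsManifold 𝓘(ℝ, V 7) ∞ M)
    (_ : IsManifold 𝓘(ℂ, V 7) ω M) (g : RMetric (V 7) M),
    IsHermitian g ∧ ∀ m : M, chartAt (V 7) m m = 0 ∧ coef g m =ᶠ[𝓝 0] h0

/-- block D: the curvature at the origin -/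
def St_curv : Prop := ∀ h : Her 7, h =ᶠ[𝓝 0] h0 →
  (∀ i j k l, chern h 0 i j k l = -chern h 0 k j i l) ∧ chern h 0 0 1 3 6 ≠ 0

end Pool.Agent.Lib.MP_40b2af_s7
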